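import Pool.Agent.Lib_helper94.QS.Top

/-!
# MP_be6710_gt: the total `σ₂`-curvature of metrics on the 3-sphere foliated by round spheres

Let `g = n(r, ω)² dr² + f(r)² g_{S²}`, `ω ∈ S²`, be a metric of nonnegative scalar curvature on the
3-sphere. The lapse `n > 0` is an arbitrary function of `r` and `ω`. Then
`vol(g)^{1/3} ∫ σ₂(g) ≤ (3/4) (2 π²)^{4/3}` and `∫ σ₁(g) ∫ σ₂(g) ≤ (9/2) π⁴`; the right sides are
the values of the round 3-sphere.
-/

set_option autoImplicit false

namespace Pool.Agent.Results.MP_be6710_gt.RoundLeaves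

open Real Pool.Agent.Lib_helper94.QS

/-- A metric `g = n² dr² + f² g_{S²}` on the 3-sphere, of nonnegative scalar curvature, satisfies
the inequality of Q1 and the product inequality. Here `metric f n` is the matrix of `g` in the
coordinates `(r, θ, φ)`, and `total G L F` is the integral of `F` over the manifold with respect to
the metric `G`. -/
theorem result {L : ℝ} {f : ℝ → ℝ} {n : ℝ → EuclideanSpace ℝ (Fin 3) → ℝ} (hL : 0 < L)
    (hf : ContDiff ℝ 2 f) (hn : ContDiff ℝ 2 fun q : ℝ × EuclideanSpace ℝ (Fin 3) => n q.1 q.2)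
    (h : OnSphere L f n) :
    total (metric f n) L (fun _ => 1) ^ (1 / 3 : ℝ) * total (metric f n) L (sigmaTwo (metric f n))
      ≤ 3 / 4 * (2 * π ^ 2) ^ (4 / 3 : ℝ) ∧
    total (metric f n) L (sigmaOne (metric f n)) * total (metric f n) L (sigmaTwo (metric f n))
      ≤ 9 / 2 * π ^ 4 :=
  top_sphere hL hf hn h

end Pool.Agent.Results.MP_be6710_gt.RoundLeaves
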