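import Pool.Agent.Lib_helper96.RP.Final

/-!
# MP_be6710_gt: the total `σ₂`-curvature of metrics on the 3-sphere with round pages

Let `g = cos² θ b² dα² + dθ² + sin² θ dφ²` on the 3-sphere of points `(sin θ e^{iφ}, cos θ e^{iα})`,
where `b > 0` is any function of class `C²` with `b = 1` on the circle `θ = π / 2`. The pages
`α = const` are totally geodesic round hemispheres. No sign of the curvature is assumed. Then
`vol(g)^{1/3} ∫ σ₂(g) ≤ (3/4) (2 π²)^{4/3}` and `∫ σ₁(g) ∫ σ₂(g) ≤ (9/2) π⁴`; the right sides are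
the values of the round 3-sphere, and equality holds only for the round metric.
-/

set_option autoImplicit false

namespace Pool.Agent.Results.MP_be6710_gt.RoundPages

open Real Pool.Agent.Lib_helper94.QS Pool.Agent.Lib_helper96.RP

/-- The metrics `g = cos² θ b² dα² + dθ² + sin² θ dφ²` on the 3-sphere satisfy the inequality of Q1
and the product inequality, with equality for the round metric only. Here `metric b` is the matrix
of `g` in the coordinates `(α, θ, φ)`, and `total G F` is the integral of `F` over the 3-sphere with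
respect to the metric `G`. -/
theorem result {b : EuclideanSpace ℝ (Fin 4) → ℝ} (hb : ContDiff ℝ 2 b)
    (pos : ∀ ζ : EuclideanSpace ℝ (Fin 4), ‖ζ‖ = 1 → 0 < b ζ)
    (binding : ∀ ζ : EuclideanSpace ℝ (Fin 4), ‖ζ‖ = 1 → ζ 2 = 0 → ζ 3 = 0 → b ζ = 1) :
    (total (metric b) (fun _ => 1) ^ (1 / 3 : ℝ) * total (metric b) (sigmaTwo (metric b))
        ≤ 3 / 4 * (2 * π ^ 2) ^ (4 / 3 : ℝ) ∧
      (total (metric b) (fun _ => 1) ^ (1 / 3 : ℝ) * total (metric b) (sigmaTwo (metric b))
        = 3 / 4 * (2 * π ^ 2) ^ (4 / 3 : ℝ) ↔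
        ∀ ζ : EuclideanSpace ℝ (Fin 4), ‖ζ‖ = 1 → b ζ = 1)) ∧
    (total (metric b) (sigmaOne (metric b)) * total (metric b) (sigmaTwo (metric b))
        ≤ 9 / 2 * π ^ 4 ∧
      (total (metric b) (sigmaOne (metric b)) * total (metric b) (sigmaTwo (metric b))
        = 9 / 2 * π ^ 4 ↔
        ∀ ζ : EuclideanSpace ℝ (Fin 4), ‖ζ‖ = 1 → b ζ = 1)) :=
  top hb pos binding

end Pool.Agent.Results.MP_be6710_gt.RoundPages
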